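import Pool.Agent.helper86.LV.Fin
import Pool.Agent.helper1.DH.RSQ
import Pool.Agent.helper13.DH.RID
import Pool.Agent.helper13.DH.EXPN
import Pool.Agent.helper13.DH.QID
import Pool.Agent.helper24.DH.MONO
import Pool.Agent.helper26.DH.SHV
import Pool.Agent.helper28.DH.QTR
import Pool.Agent.helper29.DH.HMA
import Pool.Agent.helper41.DH.DUA
import Pool.Agent.helper53.DH.DTS
import Pool.Agent.helper58.DH.DKS
import Pool.Agent.helper59.DH.GRP
import Pool.Agent.helper89.DH.ONE
import Pool.Agent.helper95.DH.QLO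
import Pool.Agent.helper99.ED.RF
import Pool.Agent.helper85.ED.XR

/-!
# The large values theorem: assembly
-/

set_option autoImplicit false

namespace Pool.Agent.LV

open Pool.Agent.helper84.DM Pool.Agent.helper78.ED Pool.Agent.DH

theorem lREFL : REFL_stmt :=
  fun k hk => SS_refl_of k hk (X_line k) (X_strip k) (zeta_strip k)

theorem lEXPN : EXPN_stmt := EXPN RID
theorem lQID : QID_stmt := QID lEXPN
theorem lQLO : QLO_stmt := QLO lEXPN lQID
theorem lONE : ONE_stmt := ONE (HMA lQLO) GRP (DUA RID)
theorem lRSQ : RSQ_stmt := RSQ lREFL (DKS (SHV RID) MONO) DTS QTR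

theorem large_values : LVT_stmt := LVT (LVB lONE lRSQ lQID) QTR

end Pool.Agent.LV
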