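import Pool.Agent.helper86.LV.Main

/-!
# The large values theorem, final form
-/

set_option autoImplicit false

open Complex MeasureTheory

namespace Pool.Agent.LV

open Pool.Agent.helper84.DM Pool.Agent.helper78.ED Pool.Agent.DH

/-- The large values theorem. -/
def LVT_stmt : Prop := ∀ ε : ℝ, 0 < ε → ∃ C : ℝ, 0 < C ∧
  ∀ (T : ℝ) (N : ℕ) (a : ℕ → ℂ) (V : ℝ) (W : Finset ℝ), 1 ≤ T → 1 ≤ N → (N : ℝ) ≤ T → 0 < V →
  (∀ t ∈ W, 0 ≤ t ∧ t ≤ T) → (∀ t ∈ W, ∀ s ∈ W, t ≠ s → 1 ≤ |t - s|) →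
  (∀ t ∈ W, V ≤ ‖∑ n ∈ Finset.Ioc N (2 * N), a n * (n : ℂ) ^ (-((t : ℂ) * I))‖) →
  C * T ^ ε * (N : ℝ) ^ (1 / 2 : ℝ) * ∑ n ∈ Finset.Ioc N (2 * N), ‖a n‖ ^ 2 ≤ V ^ 2 →
  (W.card : ℝ) ≤ C * T ^ ε * (N * (∑ n ∈ Finset.Ioc N (2 * N), ‖a n‖ ^ 2) / V ^ 2 +
    T ^ (1 / 2 : ℝ) * N * (∑ n ∈ Finset.Ioc N (2 * N), ‖a n‖ ^ 2) ^ 2 / V ^ 4)

theorem V_le (N : ℕ) (a : ℕ → ℂ) (t : ℝ) :
    ‖∑ n ∈ Finset.Ioc N (2 * N), a n * (n : ℂ) ^ (-((t : ℂ) * I))‖ ^ 2 ≤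
      N * ∑ n ∈ Finset.Ioc N (2 * N), ‖a n‖ ^ 2 := by
  have h1 : ‖∑ n ∈ Finset.Ioc N (2 * N), a n * (n : ℂ) ^ (-((t : ℂ) * I))‖ ≤
      ∑ n ∈ Finset.Ioc N (2 * N), 1 * ‖a n‖ := by
    refine (norm_sum_le _ _).trans (Finset.sum_le_sum (fun n hn => ?_))
    rw [Finset.mem_Ioc] at hn
    rw [norm_mul, Complex.norm_natCast_cpow_of_pos (by omega)]
    have h2 : (-((t : ℂ) * I)).re = 0 := by simp
    rw [h2, Real.rpow_zero]
    linarith
  have h3 := Finset.sum_mul_sq_le_sq_mul_sq (Finset.Ioc N (2 * N)) (fun _ => (1 : ℝ))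
    (fun n => ‖a n‖)
  have h4 : ∑ n ∈ Finset.Ioc N (2 * N), (1 : ℝ) ^ 2 = N := by
    rw [one_pow, Finset.sum_const, nsmul_eq_mul, Nat.card_Ioc]
    have : (2 * N - N : ℕ) = N := by omega
    rw [this, mul_one]
  rw [h4] at h3
  exact (pow_le_pow_left₀ (norm_nonneg _) h1 2).trans h3

theorem LVT (hLVB : LVB_stmt) (hQTR : QTR_stmt) : LVT_stmt := by
  classical
  intro ε hε
  set ε₁ : ℝ := min ε 1 / 4 with hε₁
  have hm : 0 < min ε 1 := lt_min hε one_pos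
  have hε₁0 : 0 < ε₁ := by positivity
  have hε₁ε : 4 * ε₁ ≤ ε := by
    rw [hε₁]
    linarith [min_le_left ε 1]
  have hε₁1 : ε₁ ≤ 1 / 4 := by
    rw [hε₁]
    linarith [min_le_right ε 1]
  obtain ⟨C₁, T₁, hC₁, hB⟩ := hLVB ε₁ hε₁0
  set T₂ : ℝ := max T₁ 2 with hT₂
  have hT₂2 : 2 ≤ T₂ := le_max_right _ _
  refine ⟨8 * C₁ + 8 * C₁ ^ 2 + 2 * T₂ + 4, by positivity, ?_⟩
  intro T N a V W hT hN hNT hV hW hsep hDV hthr
  set C : ℝ := 8 * C₁ + 8 * C₁ ^ 2 + 2 * T₂ + 4 with hC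
  have hC0 : 0 < C := by positivity
  set G : ℝ := ∑ n ∈ Finset.Ioc N (2 * N), ‖a n‖ ^ 2 with hG
  have hG0 : 0 ≤ G := Finset.sum_nonneg (fun _ _ => sq_nonneg _)
  have hNr : (1 : ℝ) ≤ N := by exact_mod_cast hN
  have hN0 : (0 : ℝ) < N := by linarith
  have hT0 : 0 < T := by linarith
  have hV2 : 0 < V ^ 2 := by positivity
  have hV4 : 0 < V ^ 4 := by positivity
  have hTε : 1 ≤ T ^ ε := Real.one_le_rpow hT hε.le
  -- the set of complex numbers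
  set Z : Finset ℂ := W.image (fun t : ℝ => (t : ℂ) * I) with hZ
  have him : ∀ t : ℝ, ((t : ℂ) * I).im = t := fun t => by simp
  have hinj : Function.Injective (fun t : ℝ => (t : ℂ) * I) := by
    intro t s h
    have h1 := congrArg Complex.im h
    simpa using h1
  have hcard : Z.card = W.card := Finset.card_image_of_injective W hinj
  have hZsep : ∀ ρ ∈ Z, ∀ ρ' ∈ Z, ρ ≠ ρ' → 1 ≤ |ρ.im - ρ'.im| := by
    intro ρ hρ ρ' hρ' hne
    rw [hZ, Finset.mem_image] at hρ hρ'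
    obtain ⟨t, ht, rfl⟩ := hρ
    obtain ⟨s, hs, rfl⟩ := hρ'
    rw [him, him]
    exact hsep t ht s hs (fun h => hne (by rw [h]))
  have hZdiff : ∀ ρ ∈ Z, ∀ ρ' ∈ Z, |ρ.im - ρ'.im| ≤ T := by
    intro ρ hρ ρ' hρ'
    rw [hZ, Finset.mem_image] at hρ hρ'
    obtain ⟨t, ht, rfl⟩ := hρ
    obtain ⟨s, hs, rfl⟩ := hρ'
    rw [him, him, abs_le]
    have h1 := hW t ht
    have h2 := hW s hs
    constructor <;> linarith
  have hZV : ∀ ρ ∈ Z, V ≤ ‖DP N a ρ.im‖ := by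
    intro ρ hρ
    rw [hZ, Finset.mem_image] at hρ
    obtain ⟨t, ht, rfl⟩ := hρ
    rw [him]
    exact hDV t ht
  rcases W.eq_empty_or_nonempty with hemp | ⟨t₀, ht₀⟩
  · rw [hemp, Finset.card_empty]
    push_cast
    positivity
  have hNG : V ^ 2 ≤ N * G := (pow_le_pow_left₀ hV.le (hDV t₀ ht₀) 2).trans (V_le N a t₀)
  rcases lt_or_ge T T₂ with hsmall | hbig
  · -- bounded T
    have h1 : (W.card : ℝ) ≤ 2 * (T + 1) + 2 := by
      have h2 := NR_one Z hZsep 0 (T + 1) (by linarith)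
      have h3 : ∑ ρ' ∈ Z, (if |0 - ρ'.im| < T + 1 then (1 : ℝ) else 0) = Z.card := by
        rw [Finset.sum_congr rfl (g := fun _ => (1 : ℝ)) (fun ρ hρ => ?_)]
        · simp
        · rw [hZ, Finset.mem_image] at hρ
          obtain ⟨t, ht, rfl⟩ := hρ
          have h4 := hW t ht
          rw [if_pos]
          rw [him, zero_sub, abs_neg, abs_of_nonneg h4.1]
          linarith
      rw [h3, hcard] at h2
      exact h2
    have h2 : 1 ≤ N * G / V ^ 2 := by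
      rw [le_div_iff₀ hV2]
      linarith
    have h3 : 0 ≤ T ^ (1 / 2 : ℝ) * N * G ^ 2 / V ^ 4 := by positivity
    have h4 : C ≤ C * T ^ ε := by nlinarith
    have h5 : C * T ^ ε ≤ C * T ^ ε * (N * G / V ^ 2 + T ^ (1 / 2 : ℝ) * N * G ^ 2 / V ^ 4) := by
      have h6 : 0 ≤ C * T ^ ε := by positivity
      nlinarith
    have h7 : 2 * (T + 1) + 2 ≤ C := by
      rw [hC]
      have : 0 ≤ 8 * C₁ + 8 * C₁ ^ 2 := by positivity
      linarith
    linarith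
  · have hT₁ : T₁ ≤ T := (le_max_left _ _).trans hbig
    have hT2 : 2 ≤ T := hT₂2.trans hbig
    set K : ℝ := C₁ * T ^ ε₁ with hK
    have hTe1 : 0 < T ^ ε₁ := Real.rpow_pos_of_pos hT0 _
    have hK0 : 0 ≤ K := by positivity
    have hsN : Real.sqrt N = (N : ℝ) ^ (1 / 2 : ℝ) := Real.sqrt_eq_rpow _
    have hTεε : T ^ ε₁ ≤ T ^ ε := Real.rpow_le_rpow_of_exponent_le hT (by linarith)
    have hthr' : 4 * K * G * Real.sqrt N ≤ V ^ 2 := by
      refine le_trans ?_ hthr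
      rw [hsN]
      have h1 : 4 * K ≤ C * T ^ ε := by
        rw [hK]
        have h2 : 4 * C₁ ≤ C := by
          rw [hC]
          have : 0 ≤ 8 * C₁ ^ 2 := by positivity
          linarith
        calc 4 * (C₁ * T ^ ε₁) = 4 * C₁ * T ^ ε₁ := by ring
          _ ≤ C * T ^ ε := by gcongr
      calc 4 * K * G * (N : ℝ) ^ (1 / 2 : ℝ) = 4 * K * ((N : ℝ) ^ (1 / 2 : ℝ) * G) := by ring
        _ ≤ C * T ^ ε * ((N : ℝ) ^ (1 / 2 : ℝ) * G) := by gcongr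
        _ = C * T ^ ε * (N : ℝ) ^ (1 / 2 : ℝ) * G := by ring
    set X : ℝ := T ^ (1 + ε₁) with hX
    have hXT : T ≤ X := by
      calc T = T ^ (1 : ℝ) := (Real.rpow_one T).symm
        _ ≤ X := Real.rpow_le_rpow_of_exponent_le hT (by linarith)
    have hXT2 : X ≤ T ^ (2 : ℕ) := by
      rw [← Real.rpow_natCast]
      exact Real.rpow_le_rpow_of_exponent_le hT (by push_cast; linarith)
    set μ : ℝ := K * G * Real.sqrt N / V ^ 2 with hμ
    have hμ0 : 0 ≤ μ := by positivity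
    have hμ4 : μ ≤ 1 / 4 := by
      rw [hμ, div_le_iff₀ hV2]
      linarith
    obtain ⟨L, Y, hL1, hY1, hNLY, hLX, hYX, hLY⟩ :=
      choose_scales X N μ (by linarith) hNr (by linarith) hμ0 hμ4
    have hLr : (1 : ℝ) ≤ L := by exact_mod_cast hL1
    have hYr : (1 : ℝ) ≤ Y := by exact_mod_cast hY1
    have hT4 : X + 1 ≤ T ^ (4 : ℕ) := by
      have h1 : T ^ (4 : ℕ) = T ^ (2 : ℕ) * T ^ (2 : ℕ) := by ring
      have h2 : 4 ≤ T ^ (2 : ℕ) := by nlinarith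
      nlinarith
    have hT5 : T ^ (4 : ℕ) ≤ T ^ (5 : ℕ) := pow_le_pow_right₀ hT (by norm_num)
    have hNL : ∀ M : ℕ, (M : ℝ) ≤ X + 1 → (N : ℝ) * M ≤ T ^ (5 : ℕ) := by
      intro M hM
      calc (N : ℝ) * M ≤ T * T ^ (4 : ℕ) := by
            apply mul_le_mul hNT (hM.trans hT4) (Nat.cast_nonneg _) hT0.le
        _ = T ^ (5 : ℕ) := by ring
    have i1 := hB T hT₁ Z hZdiff hZsep N L Y hN hL1 hY1 (hNL L hLX) ((hYX.trans hT4).trans hT5)
      hNLY a V hV.le hZV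
    have i2 := hB T hT₁ Z hZdiff hZsep N Y L hN hY1 hL1 (hNL Y hYX) ((hLX.trans hT4).trans hT5)
      (by linarith [mul_right_comm (N : ℝ) L Y]) a V hV.le hZV
    have i3 := hQTR Z L
    have hmain := two_scale K G V N L Y Z.card (QQ Z L) (QQ Z Y) hK0 hG0 hV hNr hLr hYr
      (Nat.cast_nonneg _) (LVA_QQ_nonneg Z L) (LVA_QQ_nonneg Z Y) hthr' i1 i2 i3
    rw [hcard] at hmain
    have hX0 : 0 ≤ X := by linarith
    have hsqX : Real.sqrt N * Real.sqrt (X / N) = Real.sqrt X := by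
      rw [← Real.sqrt_mul hN0.le]
      congr 1
      field_simp
    have hXh : Real.sqrt X = T ^ (1 / 2 : ℝ) * T ^ (ε₁ / 2) := by
      rw [Real.sqrt_eq_rpow, hX, ← Real.rpow_mul hT0.le, ← Real.rpow_add hT0]
      congr 1
      ring
    have h1 : (W.card : ℝ) ≤ 4 * (K * G * N / V ^ 2) * (2 + 2 * μ * Real.sqrt (X / N)) :=
      hmain.trans (mul_le_mul_of_nonneg_left hLY (by positivity))
    have h2 : 4 * (K * G * N / V ^ 2) * (2 + 2 * μ * Real.sqrt (X / N)) =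
        8 * K * (N * G / V ^ 2) + 8 * (K ^ 2 * T ^ (ε₁ / 2)) *
          (T ^ (1 / 2 : ℝ) * N * G ^ 2 / V ^ 4) := by
      have h3 : 4 * (K * G * N / V ^ 2) * (2 + 2 * μ * Real.sqrt (X / N)) =
          8 * K * (N * G / V ^ 2) + 8 * K ^ 2 * (N * G ^ 2 / V ^ 4) *
            (Real.sqrt N * Real.sqrt (X / N)) := by
        rw [hμ]
        field_simp
        ring
      rw [h3, hsqX, hXh]
      ring
    rw [h2] at h1
    have h4 : K ≤ C₁ * T ^ ε := by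
      rw [hK]
      gcongr
    have h5 : K ^ 2 * T ^ (ε₁ / 2) ≤ C₁ ^ 2 * T ^ ε := by
      have h6 : K ^ 2 * T ^ (ε₁ / 2) = C₁ ^ 2 * (T ^ ε₁ * T ^ ε₁ * T ^ (ε₁ / 2)) := by
        rw [hK]
        ring
      rw [h6, ← Real.rpow_add hT0, ← Real.rpow_add hT0]
      have h7 : T ^ (ε₁ + ε₁ + ε₁ / 2) ≤ T ^ ε :=
        Real.rpow_le_rpow_of_exponent_le hT (by linarith)
      gcongr
    set P : ℝ := N * G / V ^ 2 with hP
    set Q : ℝ := T ^ (1 / 2 : ℝ) * N * G ^ 2 / V ^ 4 with hQ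
    have hP0 : 0 ≤ P := by positivity
    have hQ0 : 0 ≤ Q := by positivity
    calc (W.card : ℝ) ≤ 8 * K * P + 8 * (K ^ 2 * T ^ (ε₁ / 2)) * Q := h1
      _ ≤ 8 * (C₁ * T ^ ε) * P + 8 * (C₁ ^ 2 * T ^ ε) * Q := by gcongr
      _ ≤ C * T ^ ε * (P + Q) := by
          have hT0' : 0 ≤ T ^ ε := by linarith
          have e1 : 8 * (C₁ * T ^ ε) ≤ C * T ^ ε := by
            have : 8 * C₁ ≤ C := by
              rw [hC]
              have : 0 ≤ 8 * C₁ ^ 2 := by positivity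
              linarith
            nlinarith
          have e2 : 8 * (C₁ ^ 2 * T ^ ε) ≤ C * T ^ ε := by
            have : 8 * C₁ ^ 2 ≤ C := by
              rw [hC]
              linarith
            nlinarith
          rw [mul_add]
          exact add_le_add (mul_le_mul_of_nonneg_right e1 hP0) (mul_le_mul_of_nonneg_right e2 hQ0)

end Pool.Agent.LV
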