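import Pool.Agent.helper86.LV.Spec
import Pool.Agent.helper67.DH.LVA

/-!
# The two-scale inequality
-/

set_option autoImplicit false

open Complex MeasureTheory

namespace Pool.Agent.LV

open Pool.Agent.helper84.DM Pool.Agent.helper78.ED Pool.Agent.DH

theorem NR_one (Z : Finset ℂ) (hsep : ∀ ρ ∈ Z, ∀ ρ' ∈ Z, ρ ≠ ρ' → 1 ≤ |ρ.im - ρ'.im|) (x : ℝ)
    (l : ℝ) (hl : 0 ≤ l) :
    ∑ ρ' ∈ Z, (if |x - ρ'.im| < l then (1 : ℝ) else 0) ≤ 2 * l + 2 := by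
  classical
  rw [← Finset.sum_filter, Finset.sum_const, nsmul_eq_mul, mul_one]
  set S := Z.filter (fun ρ' => |x - ρ'.im| < l) with hS
  have hmaps : ∀ ρ ∈ S, ⌊ρ.im - x⌋ ∈ Finset.Icc ⌊-l⌋ ⌊l⌋ := by
    intro ρ hρ
    rw [hS, Finset.mem_filter] at hρ
    obtain ⟨-, h⟩ := hρ
    rw [abs_lt] at h
    rw [Finset.mem_Icc]
    exact ⟨Int.floor_le_floor (by linarith), Int.floor_le_floor (by linarith)⟩
  have hinj : Set.InjOn (fun ρ : ℂ => ⌊ρ.im - x⌋) (S : Set ℂ) := by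
    intro ρ hρ ρ' hρ' h
    by_contra hne
    rw [Finset.mem_coe, hS, Finset.mem_filter] at hρ hρ'
    have h1 := hsep ρ hρ.1 ρ' hρ'.1 hne
    have h2 : |(ρ.im - x) - (ρ'.im - x)| < 1 := Int.abs_sub_lt_one_of_floor_eq_floor h
    have h3 : (ρ.im - x) - (ρ'.im - x) = ρ.im - ρ'.im := by ring
    rw [h3] at h2
    linarith
  have hcard := Finset.card_le_card_of_injOn (fun ρ : ℂ => ⌊ρ.im - x⌋) hmaps hinj
  rw [Int.card_Icc] at hcard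
  have h4 : (S.card : ℤ) ≤ ⌊l⌋ + 1 - ⌊-l⌋ := by
    have h5 : 0 ≤ ⌊l⌋ + 1 - ⌊-l⌋ := by
      have h6 : ⌊-l⌋ ≤ ⌊l⌋ := Int.floor_le_floor (by linarith)
      linarith
    have h7 : ((⌊l⌋ + 1 - ⌊-l⌋).toNat : ℤ) = ⌊l⌋ + 1 - ⌊-l⌋ := Int.toNat_of_nonneg h5
    have h8 : (S.card : ℤ) ≤ ((⌊l⌋ + 1 - ⌊-l⌋).toNat : ℤ) := by exact_mod_cast hcard
    linarith
  have h9 : (S.card : ℝ) ≤ (⌊l⌋ : ℝ) + 1 - (⌊-l⌋ : ℝ) := by exact_mod_cast h4
  have h10 := Int.floor_le l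
  have h11 := Int.lt_floor_add_one (-l)
  linarith

theorem NR : NR_stmt := by
  intro ε hε
  have h := (isLittleO_log_rpow_atTop hε).bound (show (0 : ℝ) < 1 by norm_num)
  obtain ⟨T₁, h1⟩ := Filter.eventually_atTop.1 h
  refine ⟨4, max T₁ 1, by norm_num, ?_⟩
  intro T hT Z hsep
  have hT1 : T₁ ≤ T := (le_max_left _ _).trans hT
  have hT2 : 1 ≤ T := (le_max_right _ _).trans hT
  have hlog : 0 ≤ Real.log T := Real.log_nonneg hT2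
  have h2 := h1 T hT1
  have h3 : (1 : ℝ) ≤ T ^ ε := Real.one_le_rpow hT2 hε.le
  rw [Real.norm_of_nonneg hlog, Real.norm_of_nonneg (by linarith), one_mul] at h2
  have h4 : ∀ ρ ∈ Z, ∑ ρ' ∈ Z, (if |ρ.im - ρ'.im| < Real.log T then (1 : ℝ) else 0) ≤
      4 * T ^ ε := fun ρ _ => (NR_one Z hsep ρ.im (Real.log T) hlog).trans (by linarith)
  refine (Finset.sum_le_sum h4).trans (le_of_eq ?_)
  rw [Finset.sum_const, nsmul_eq_mul]
  ring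

theorem LVB (hONE : ONE_stmt) (hRSQ : RSQ_stmt) (hQID : QID_stmt) : LVB_stmt := by
  intro ε hε
  obtain ⟨C₀, hC₀, hd⟩ := Pool.Agent.helper84.DM.divisor_bound (ε / 24) (by positivity)
  obtain ⟨C₁, hC₁, hS⟩ := SS_triv
  obtain ⟨C₂, T₂, hC₂, hN⟩ := NR (ε / 4) (by positivity)
  obtain ⟨C₃, T₃, hC₃, hR⟩ := hRSQ (ε / 2) (by positivity)
  refine ⟨Real.exp 16 * C₀ * (7 * C₁ * C₂ + Real.sqrt C₃), max 16 (max T₂ T₃), by positivity, ?_⟩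
  intro T hT Z hdiff hsep N L Y hN1 hL1 hY1 hNL hYT hTL a V hV hDP
  have hT16 : (16 : ℝ) ≤ T := le_trans (le_max_left _ _) hT
  have hTT2 : T₂ ≤ T := le_trans (le_trans (le_max_left _ _) (le_max_right _ _)) hT
  have hTT3 : T₃ ≤ T := le_trans (le_trans (le_max_right _ _) (le_max_right _ _)) hT
  have hT0 : (0 : ℝ) < T := by linarith
  have hT1 : (1 : ℝ) ≤ T := by linarith
  have hNr : (1 : ℝ) ≤ N := by exact_mod_cast hN1
  have hLr : (1 : ℝ) ≤ L := by exact_mod_cast hL1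
  have hYr : (1 : ℝ) ≤ Y := by exact_mod_cast hY1
  have hNL1 : (1 : ℝ) ≤ (N : ℝ) * L := by nlinarith
  have h56 : 16 * T ^ (5 : ℕ) ≤ T ^ (6 : ℕ) := by
    have h0 : 0 ≤ T ^ (5 : ℕ) := by positivity
    calc 16 * T ^ (5 : ℕ) ≤ T * T ^ (5 : ℕ) := mul_le_mul_of_nonneg_right hT16 h0
      _ = T ^ (6 : ℕ) := by ring
  have h5 : T ^ (5 : ℕ) ≤ T ^ (6 : ℕ) := by
    have h0 : 0 ≤ T ^ (5 : ℕ) := by positivity
    linarith
  have hQ0 := LVA_QQ_nonneg Z L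
  have hQY := LVA_QQ_nonneg Z Y
  -- the divisor bound
  have hD : ∀ k : ℕ, 1 ≤ k → k ≤ 16 * (N * L) → d k ≤ C₀ * T ^ (ε / 4) := by
    intro k hk1 hk
    refine (hd k hk1).trans ?_
    refine mul_le_mul_of_nonneg_left ?_ hC₀.le
    have h1 : (k : ℝ) ≤ T ^ (6 : ℕ) := by
      have h2 : (k : ℝ) ≤ 16 * ((N : ℝ) * L) := by exact_mod_cast hk
      linarith
    calc (k : ℝ) ^ (ε / 24) ≤ (T ^ (6 : ℕ)) ^ (ε / 24) :=
          Real.rpow_le_rpow (by positivity) h1 (by positivity)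
      _ = T ^ (ε / 4) := by
          rw [← Real.rpow_natCast, ← Real.rpow_mul hT0.le]
          congr 1
          push_cast
          ring
  have hone := hONE Z N L a V (C₀ * T ^ (ε / 4)) hN1 hL1 hV hD hDP
  -- far pairs
  have hTe : T ^ (1 + ε / 2) ≤ (N : ℝ) * L * Y :=
    (Real.rpow_le_rpow_of_exponent_le hT1 (by linarith)).trans hTL
  have hfar := hR T hTT3 Z hdiff ((N : ℝ) * L) Y hNL1 (hNL.trans h5) hY1 (hYT.trans h5) hTe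
    (fun _ _ => 0) (fun _ _ _ _ => ⟨le_refl _, zero_le_one⟩)
  set F : ℂ → ℂ → ℝ := fun ρ ρ' => if Real.log T ≤ |ρ.im - ρ'.im| then
    ‖SS ((N : ℝ) * L) 0 (ρ.im - ρ'.im)‖ else 0 with hF
  have hF2 : ∑ ρ ∈ Z, ∑ ρ' ∈ Z, F ρ ρ' ^ 2 ≤ C₃ * T ^ (ε / 2) * (N * L / Y) * QQ Z Y := by
    have h1 : ∑ ρ ∈ Z, ∑ ρ' ∈ Z, F ρ ρ' ^ 2 = ∑ ρ ∈ Z, ∑ ρ' ∈ Z,
        (if Real.log T ≤ |ρ.im - ρ'.im| then ‖SS ((N : ℝ) * L) 0 (ρ.im - ρ'.im)‖ ^ 2 else 0) := by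
      refine Finset.sum_congr rfl (fun ρ _ => Finset.sum_congr rfl (fun ρ' _ => ?_))
      simp only [hF]
      split_ifs
      · rfl
      · norm_num
    rw [h1]
    have h2 : C₃ * T ^ (ε / 2) * ((N : ℝ) * L) * QQ Z Y =
        (Y : ℝ) * (C₃ * T ^ (ε / 2) * (N * L / Y) * QQ Z Y) := by
      field_simp
    rw [h2] at hfar
    exact le_of_mul_le_mul_left hfar (by linarith)
  have hG2 : ∑ ρ ∈ Z, ∑ ρ' ∈ Z, ‖PL (IL L) (ρ.im - ρ'.im)‖ ^ 2 ≤ QQ Z L := (hQID Z L).ge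
  have hcs := LVA_cs Z F (fun ρ ρ' => ‖PL (IL L) (ρ.im - ρ'.im)‖) _ _ hF2 hG2
  set U : ℝ := N * L / Y * (QQ Z L * QQ Z Y) with hU
  have hU0 : 0 ≤ U := by positivity
  have hsq : Real.sqrt (C₃ * T ^ (ε / 2) * (N * L / Y) * QQ Z Y * QQ Z L) =
      Real.sqrt C₃ * T ^ (ε / 4) * Real.sqrt U := by
    have h3 : T ^ (ε / 2) = (T ^ (ε / 4)) ^ 2 := by
      rw [← Real.rpow_natCast, ← Real.rpow_mul hT0.le]
      congr 1
      push_cast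
      ring
    have h1 : C₃ * T ^ (ε / 2) * (N * L / Y) * QQ Z Y * QQ Z L =
        C₃ * (T ^ (ε / 4)) ^ 2 * U := by
      rw [h3, hU]
      ring
    have h5 : 0 ≤ T ^ (ε / 4) := Real.rpow_nonneg hT0.le _
    rw [h1, Real.sqrt_mul (by positivity), Real.sqrt_mul hC₃.le, Real.sqrt_sq h5]
  rw [hsq] at hcs
  -- near pairs
  have hnear : ∑ ρ ∈ Z, ∑ ρ' ∈ Z, (if |ρ.im - ρ'.im| < Real.log T then (1 : ℝ) else 0) *
      (C₁ * ((N : ℝ) * L) * (7 * L)) ≤ C₂ * T ^ (ε / 4) * (Z.card : ℝ) *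
        (C₁ * ((N : ℝ) * L) * (7 * L)) := by
    have h1 := hN T hTT2 Z hsep
    have h2 : ∑ ρ ∈ Z, ∑ ρ' ∈ Z, (if |ρ.im - ρ'.im| < Real.log T then (1 : ℝ) else 0) *
      (C₁ * ((N : ℝ) * L) * (7 * L)) =
      (∑ ρ ∈ Z, ∑ ρ' ∈ Z, (if |ρ.im - ρ'.im| < Real.log T then (1 : ℝ) else 0)) *
      (C₁ * ((N : ℝ) * L) * (7 * L)) := by
      rw [Finset.sum_mul]
      refine Finset.sum_congr rfl (fun ρ _ => ?_)
      rw [Finset.sum_mul]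
    rw [h2]
    exact mul_le_mul_of_nonneg_right h1 (by positivity)
  -- all pairs
  have hall : ∑ ρ ∈ Z, ∑ ρ' ∈ Z, ‖SS ((N : ℝ) * L) 0 (ρ.im - ρ'.im)‖ *
      ‖PL (IL L) (ρ.im - ρ'.im)‖ ≤
      C₂ * T ^ (ε / 4) * (Z.card : ℝ) * (C₁ * ((N : ℝ) * L) * (7 * L)) +
      Real.sqrt C₃ * T ^ (ε / 4) * Real.sqrt U := by
    refine le_trans ?_ (add_le_add hnear hcs)
    rw [← Finset.sum_add_distrib]
    refine Finset.sum_le_sum (fun ρ _ => ?_)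
    rw [← Finset.sum_add_distrib]
    refine Finset.sum_le_sum (fun ρ' _ => ?_)
    have hs1 := hS ((N : ℝ) * L) 0 (ρ.im - ρ'.im) hNL1 (le_refl _)
    have hp1 := LVA_PL L (ρ.im - ρ'.im)
    by_cases hlt : |ρ.im - ρ'.im| < Real.log T
    · have hnot : ¬ Real.log T ≤ |ρ.im - ρ'.im| := not_le.mpr hlt
      simp only [hF, if_pos hlt, if_neg hnot, one_mul, zero_mul, add_zero]
      exact mul_le_mul hs1 hp1 (norm_nonneg _) (by positivity)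
    · have hyes : Real.log T ≤ |ρ.im - ρ'.im| := not_lt.mp hlt
      simp only [hF, if_neg hlt, if_pos hyes, zero_mul, zero_add]
      exact le_refl _
  -- assembly
  set S0 := ∑ ρ ∈ Z, ∑ ρ' ∈ Z, ‖SS ((N : ℝ) * L) 0 (ρ.im - ρ'.im)‖ *
      ‖PL (IL L) (ρ.im - ρ'.im)‖ with hS0
  set G : ℝ := ∑ n ∈ Finset.Ioc N (2 * N), ‖a n‖ ^ 2 with hG
  have hG0 : 0 ≤ G := Finset.sum_nonneg (fun _ _ => sq_nonneg _)
  have hTq : 0 < T ^ (ε / 4) := Real.rpow_pos_of_pos hT0 _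
  have hTT : T ^ (ε / 4) * T ^ (ε / 4) ≤ T ^ ε := by
    rw [← Real.rpow_add hT0]
    exact Real.rpow_le_rpow_of_exponent_le hT1 (by linarith)
  have hc0 : 0 ≤ Real.sqrt C₃ := Real.sqrt_nonneg _
  have hu0 : 0 ≤ Real.sqrt U := Real.sqrt_nonneg _
  have hcard : 0 ≤ (Z.card : ℝ) := Nat.cast_nonneg _
  calc V ^ 2 * QQ Z L
      ≤ G * (C₀ * T ^ (ε / 4) * (Real.exp 16 * S0)) := hone
    _ ≤ G * (C₀ * T ^ (ε / 4) * (Real.exp 16 *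
        (C₂ * T ^ (ε / 4) * (Z.card : ℝ) * (C₁ * ((N : ℝ) * L) * (7 * L)) +
        Real.sqrt C₃ * T ^ (ε / 4) * Real.sqrt U))) := by
        refine mul_le_mul_of_nonneg_left ?_ hG0
        refine mul_le_mul_of_nonneg_left ?_ (by positivity)
        exact mul_le_mul_of_nonneg_left hall (by positivity)
    _ = (Real.exp 16 * C₀ * G) * (T ^ (ε / 4) * T ^ (ε / 4)) *
        (7 * C₁ * C₂ * ((N : ℝ) * (L : ℝ) ^ 2 * (Z.card : ℝ)) +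
          Real.sqrt C₃ * Real.sqrt U) := by ring
    _ ≤ (Real.exp 16 * C₀ * G) * T ^ ε *
        ((7 * C₁ * C₂ + Real.sqrt C₃) * ((N : ℝ) * (L : ℝ) ^ 2 * (Z.card : ℝ) +
          Real.sqrt U)) := by
        have hX0 : 0 ≤ (N : ℝ) * (L : ℝ) ^ 2 * (Z.card : ℝ) := by positivity
        have hE0 : 0 ≤ Real.exp 16 * C₀ * G := by positivity
        have hTε : 0 ≤ T ^ ε := Real.rpow_nonneg hT0.le _
        refine mul_le_mul ?_ ?_ ?_ ?_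
        · exact mul_le_mul_of_nonneg_left hTT hE0
        · have h71 : 0 ≤ 7 * C₁ * C₂ := by positivity
          nlinarith [mul_nonneg h71 hu0, mul_nonneg hc0 hX0]
        · have h71 : 0 ≤ 7 * C₁ * C₂ := by positivity
          exact add_nonneg (mul_nonneg h71 hX0) (mul_nonneg hc0 hu0)
        · exact mul_nonneg hE0 hTε
    _ = Real.exp 16 * C₀ * (7 * C₁ * C₂ + Real.sqrt C₃) * T ^ ε * G *
        ((N : ℝ) * (L : ℝ) ^ 2 * (Z.card : ℝ) + Real.sqrt U) := by ring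

end Pool.Agent.LV
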