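import Pool.Agent.helper86.LV.LVB

/-!
# The large values theorem
-/

set_option autoImplicit false

open Complex MeasureTheory

namespace Pool.Agent.LV

open Pool.Agent.helper84.DM Pool.Agent.helper78.ED Pool.Agent.DH

/-- The algebra: two coupled inequalities. -/
theorem alg_two (R qL qY μ lam L Y : ℝ) (hR : 0 ≤ R) (hqL : 0 ≤ qL) (hqY : 0 ≤ qY) (hμ : 0 ≤ μ)
    (hμ4 : μ ≤ 1 / 4) (hlam : 0 ≤ lam) (hL : 0 ≤ L) (hY : 0 ≤ Y)
    (h1 : qL ≤ lam * L * R + μ * Real.sqrt (qL * qY))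
    (h2 : qY ≤ lam * Y * R + μ * Real.sqrt (qL * qY)) (h3 : R ^ 2 ≤ qL) :
    R ≤ 4 * lam * (L + μ ^ 2 * Y) := by
  set s : ℝ := Real.sqrt (qL * qY) with hs
  have hs0 : 0 ≤ s := Real.sqrt_nonneg _
  have e1 : μ * s ≤ (qY + μ ^ 2 * qL) / 2 := by
    have h := sq_nonneg (Real.sqrt qY - μ * Real.sqrt qL)
    have a1 : Real.sqrt qY ^ 2 = qY := Real.sq_sqrt hqY
    have a2 : Real.sqrt qL ^ 2 = qL := Real.sq_sqrt hqL
    have a3 : s = Real.sqrt qL * Real.sqrt qY := Real.sqrt_mul hqL _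
    nlinarith
  have e2 : μ * s ≤ (qL + μ ^ 2 * qY) / 2 := by
    have h := sq_nonneg (Real.sqrt qL - μ * Real.sqrt qY)
    have a1 : Real.sqrt qY ^ 2 = qY := Real.sq_sqrt hqY
    have a2 : Real.sqrt qL ^ 2 = qL := Real.sq_sqrt hqL
    have a3 : s = Real.sqrt qL * Real.sqrt qY := Real.sqrt_mul hqL _
    nlinarith
  have f1 : qY ≤ 2 * lam * Y * R + μ ^ 2 * qL := by linarith
  have f2 : qL ≤ 2 * lam * L * R + μ ^ 2 * qY := by linarith
  have hμ2 : μ ^ 2 ≤ 1 / 16 := by nlinarith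
  have hμ20 : 0 ≤ μ ^ 2 := sq_nonneg _
  have f3 : qL ≤ 2 * lam * L * R + μ ^ 2 * (2 * lam * Y * R + μ ^ 2 * qL) :=
    f2.trans (by linarith [mul_le_mul_of_nonneg_left f1 hμ20])
  have f4 : μ ^ 2 * (μ ^ 2 * qL) ≤ qL / 2 := by
    have g1 : μ ^ 2 * qL ≤ 1 / 16 * qL := mul_le_mul_of_nonneg_right hμ2 hqL
    have g2 : μ ^ 2 * (μ ^ 2 * qL) ≤ 1 / 16 * (μ ^ 2 * qL) :=
      mul_le_mul_of_nonneg_right hμ2 (by positivity)
    linarith
  have f5 : qL ≤ 4 * lam * (L + μ ^ 2 * Y) * R := by nlinarith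
  rcases hR.eq_or_lt with h0 | h0
  · rw [← h0]
    positivity
  · have f6 : R * R ≤ 4 * lam * (L + μ ^ 2 * Y) * R := by
      have : R ^ 2 = R * R := by ring
      linarith
    exact le_of_mul_le_mul_right f6 h0

/-- From `LVB`: the inequality for `R`. -/
theorem two_scale (K G V N L Y R QL QY : ℝ) (hK : 0 ≤ K) (hG : 0 ≤ G) (hV : 0 < V) (hN : 1 ≤ N)
    (hL : 1 ≤ L) (hY : 1 ≤ Y) (hR : 0 ≤ R) (hQL : 0 ≤ QL) (hQY : 0 ≤ QY)
    (hthr : 4 * K * G * Real.sqrt N ≤ V ^ 2)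
    (h1 : V ^ 2 * QL ≤ K * G * (N * L ^ 2 * R + Real.sqrt (N * L / Y * (QL * QY))))
    (h2 : V ^ 2 * QY ≤ K * G * (N * Y ^ 2 * R + Real.sqrt (N * Y / L * (QY * QL))))
    (h3 : L * R ^ 2 ≤ QL) :
    R ≤ 4 * (K * G * N / V ^ 2) * (L + (K * G * Real.sqrt N / V ^ 2) ^ 2 * Y) := by
  have hV2 : 0 < V ^ 2 := by positivity
  have hL0 : 0 < L := by linarith
  have hY0 : 0 < Y := by linarith
  have hN0 : 0 < N := by linarith
  have hsN : 0 ≤ Real.sqrt N := Real.sqrt_nonneg _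
  have hKG : 0 ≤ K * G := mul_nonneg hK hG
  have hs : ∀ A B P Q : ℝ, 0 < A → 0 < B → 0 ≤ P → 0 ≤ Q →
      Real.sqrt (N * A / B * (P * Q)) = A * (Real.sqrt N * Real.sqrt (P / A * (Q / B))) := by
    intro A B P Q hA hB hP hQ
    rw [← Real.sqrt_mul hN0.le]
    have g1 : A = Real.sqrt (A ^ 2) := (Real.sqrt_sq hA.le).symm
    conv_rhs => rw [g1]
    rw [← Real.sqrt_mul (by positivity)]
    congr 1
    rw [Real.sqrt_sq hA.le]
    field_simp
  rw [hs L Y QL QY hL0 hY0 hQL hQY] at h1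
  rw [hs Y L QY QL hY0 hL0 hQY hQL] at h2
  have hc : QY / Y * (QL / L) = QL / L * (QY / Y) := by ring
  rw [hc] at h2
  set qL : ℝ := QL / L with hqL
  set qY : ℝ := QY / Y with hqY
  have eL : QL = L * qL := by rw [hqL]; field_simp
  have eY : QY = Y * qY := by rw [hqY]; field_simp
  have hqL0 : 0 ≤ qL := by positivity
  have hqY0 : 0 ≤ qY := by positivity
  refine alg_two R qL qY (K * G * Real.sqrt N / V ^ 2) (K * G * N / V ^ 2) L Y hR hqL0 hqY0
    (by positivity) ?_ (by positivity) hL0.le hY0.le ?_ ?_ ?_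
  · rw [div_le_iff₀ hV2]
    linarith
  · have g1 : V ^ 2 * qL ≤ K * G * (N * L * R + Real.sqrt N * Real.sqrt (qL * qY)) := by
      rw [eL] at h1
      have g2 : L * (V ^ 2 * qL) ≤
          L * (K * G * (N * L * R + Real.sqrt N * Real.sqrt (qL * qY))) := by
        refine le_trans (le_of_eq (by ring)) (h1.trans (le_of_eq (by ring)))
      exact le_of_mul_le_mul_left g2 hL0
    have g3 : K * G * N / V ^ 2 * L * R + K * G * Real.sqrt N / V ^ 2 * Real.sqrt (qL * qY) =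
        K * G * (N * L * R + Real.sqrt N * Real.sqrt (qL * qY)) / V ^ 2 := by
      field_simp
    rw [g3, le_div_iff₀ hV2]
    linarith
  · have g1 : V ^ 2 * qY ≤ K * G * (N * Y * R + Real.sqrt N * Real.sqrt (qL * qY)) := by
      rw [eY] at h2
      have g2 : Y * (V ^ 2 * qY) ≤
          Y * (K * G * (N * Y * R + Real.sqrt N * Real.sqrt (qL * qY))) := by
        refine le_trans (le_of_eq (by ring)) (h2.trans (le_of_eq (by ring)))
      exact le_of_mul_le_mul_left g2 hY0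
    have g3 : K * G * N / V ^ 2 * Y * R + K * G * Real.sqrt N / V ^ 2 * Real.sqrt (qL * qY) =
        K * G * (N * Y * R + Real.sqrt N * Real.sqrt (qL * qY)) / V ^ 2 := by
      field_simp
    rw [g3, le_div_iff₀ hV2]
    linarith
  · rw [hqL, le_div_iff₀ hL0]
    linarith

/-- Choice of the scales. -/
theorem choose_scales (X N μ : ℝ) (hX : 1 ≤ X) (hN : 1 ≤ N) (hNX : N ≤ X) (hμ : 0 ≤ μ)
    (hμ4 : μ ≤ 1 / 4) : ∃ L Y : ℕ, 1 ≤ L ∧ 1 ≤ Y ∧ X ≤ N * L * Y ∧ (L : ℝ) ≤ X + 1 ∧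
      (Y : ℝ) ≤ X + 1 ∧ (L : ℝ) + μ ^ 2 * Y ≤ 2 + 2 * μ * Real.sqrt (X / N) := by
  have hN0 : 0 < N := by linarith
  have hX0 : 0 < X := by linarith
  set r : ℝ := Real.sqrt (X / N) with hr
  have hr1 : 1 ≤ r := by
    rw [hr]
    apply Real.one_le_sqrt.2
    rw [le_div_iff₀ hN0]
    linarith
  have hr2 : r ^ 2 = X / N := Real.sq_sqrt (by positivity)
  have hrX : r ≤ X := by
    have g1 : X / N ≤ X := by
      rw [div_le_iff₀ hN0]
      nlinarith
    have : r ^ 2 ≤ X := by linarith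
    nlinarith
  refine ⟨⌊μ * r⌋₊ + 1, ⌈X / (N * ((⌊μ * r⌋₊ + 1 : ℕ) : ℝ))⌉₊, by omega, ?_, ?_, ?_, ?_, ?_⟩
  · rw [Nat.one_le_ceil_iff]
    positivity
  · set L : ℝ := ((⌊μ * r⌋₊ + 1 : ℕ) : ℝ) with hL
    have hL0 : 0 < L := by
      rw [hL]
      positivity
    have g1 := Nat.le_ceil (X / (N * L))
    rw [div_le_iff₀ (by positivity)] at g1
    linarith
  · push_cast
    have g1 := Nat.floor_le (show 0 ≤ μ * r by positivity)
    nlinarith
  · set L : ℝ := ((⌊μ * r⌋₊ + 1 : ℕ) : ℝ) with hL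
    have hL1 : 1 ≤ L := by
      rw [hL]
      push_cast
      linarith [Nat.cast_nonneg (α := ℝ) ⌊μ * r⌋₊]
    have g1 := Nat.ceil_lt_add_one (show 0 ≤ X / (N * L) by positivity)
    have g2 : X / (N * L) ≤ X := by
      rw [div_le_iff₀ (by positivity)]
      have : 1 ≤ N * L := by nlinarith
      nlinarith
    linarith
  · set L : ℝ := ((⌊μ * r⌋₊ + 1 : ℕ) : ℝ) with hL
    have hLr : μ * r ≤ L := by
      rw [hL]
      push_cast
      exact (Nat.lt_floor_add_one _).le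
    have hL2 : L ≤ μ * r + 1 := by
      rw [hL]
      push_cast
      linarith [Nat.floor_le (show 0 ≤ μ * r by positivity)]
    have hL1 : 1 ≤ L := by
      rw [hL]
      push_cast
      linarith [Nat.cast_nonneg (α := ℝ) ⌊μ * r⌋₊]
    have hL0 : 0 < L := by linarith
    have g1 := Nat.ceil_lt_add_one (show 0 ≤ X / (N * L) by positivity)
    have g2 : μ ^ 2 * (X / (N * L)) ≤ μ * r := by
      have g3 : X / (N * L) = r ^ 2 / L := by
        rw [hr2]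
        field_simp
      rw [g3, ← mul_div_assoc, div_le_iff₀ hL0]
      calc μ ^ 2 * r ^ 2 = (μ * r) * (μ * r) := by ring
        _ ≤ (μ * r) * L := mul_le_mul_of_nonneg_left hLr (by positivity)
        _ = μ * r * L := by ring
    have g4 : μ ^ 2 ≤ 1 := by nlinarith
    have g5 : μ ^ 2 * (⌈X / (N * L)⌉₊ : ℝ) ≤ μ ^ 2 * (X / (N * L) + 1) :=
      mul_le_mul_of_nonneg_left g1.le (sq_nonneg _)
    nlinarith

end Pool.Agent.LV
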