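import Pool.Agent.helper15.DH.Spec

/-!
# A new large values theorem for Dirichlet polynomials (MP_4467b5_nt)

Notation of the project dh (helper15): `RR`, `QQ`, `IL`, `PL`, `DP`.
-/

set_option autoImplicit false

open Complex MeasureTheory

namespace Pool.Agent.LV

open Pool.Agent.helper84.DM Pool.Agent.helper78.ED Pool.Agent.DH

/-- NR. The number of close pairs of a well spaced set. -/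
def NR_stmt : Prop := ∀ ε : ℝ, 0 < ε → ∃ C T₀ : ℝ, 0 < C ∧ ∀ T : ℝ, T₀ ≤ T → ∀ Z : Finset ℂ,
  (∀ ρ ∈ Z, ∀ ρ' ∈ Z, ρ ≠ ρ' → 1 ≤ |ρ.im - ρ'.im|) →
  ∑ ρ ∈ Z, ∑ ρ' ∈ Z, (if |ρ.im - ρ'.im| < Real.log T then (1 : ℝ) else 0)
    ≤ C * T ^ ε * (Z.card : ℝ)

/-- LVB. The one-sided Halász–Montgomery inequality with zeta weights, for two scales `L`, `Y`
with `N L Y ≥ T^(1+ε)`. The proof is that of LVA (`helper67/DH/LVA`), with RSQ for `M = N L` and the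
scale `Y`. -/
def LVB_stmt : Prop := ∀ ε : ℝ, 0 < ε → ∃ C T₀ : ℝ, 0 < C ∧ ∀ T : ℝ, T₀ ≤ T → ∀ Z : Finset ℂ,
  (∀ ρ ∈ Z, ∀ ρ' ∈ Z, |ρ.im - ρ'.im| ≤ T) →
  (∀ ρ ∈ Z, ∀ ρ' ∈ Z, ρ ≠ ρ' → 1 ≤ |ρ.im - ρ'.im|) → ∀ N L Y : ℕ, 1 ≤ N → 1 ≤ L → 1 ≤ Y →
  (N : ℝ) * L ≤ T ^ (5 : ℕ) → (Y : ℝ) ≤ T ^ (5 : ℕ) → T ^ (1 + ε) ≤ (N : ℝ) * L * Y →
  ∀ (a : ℕ → ℂ) (V : ℝ), 0 ≤ V → (∀ ρ ∈ Z, V ≤ ‖DP N a ρ.im‖) →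
  V ^ 2 * QQ Z L ≤ C * T ^ ε * (∑ n ∈ Finset.Ioc N (2 * N), ‖a n‖ ^ 2) *
    ((N : ℝ) * (L : ℝ) ^ 2 * (Z.card : ℝ) + Real.sqrt (N * L / Y * (QQ Z L * QQ Z Y)))

end Pool.Agent.LV
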